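import Pool.Agent.Helper1.PD.Win

/-! The counting core of the positive density theorem: from a weighted sum over good preimages to a number of preimages. -/

namespace Pool.Agent.Helper13.PD

open Pool.Agent.Helper3.ND Pool.Agent.Helper3.TD Pool.Agent.Helper1.PD

theorem N_bounds {t : ℕ} {X N : ℤ} {V : ℝ} (hN : T^[t] N = X) (hV : (cc t N : ℝ) ≤ V * 2 ^ t)
    (hX : 2 * V ≤ |(X : ℝ)|) :
    |(N : ℝ)| * wt t N ≤ 2 * |(X : ℝ)| ∧ |(X : ℝ)| ≤ 2 * (|(N : ℝ)| * wt t N) := by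
  have h1 := affine t N
  rw [hN] at h1
  have h2 : (2 : ℝ) ^ t * X = 3 ^ od t N * N + cc t N := by exact_mod_cast h1
  have h3 : (0 : ℝ) ≤ cc t N := by exact_mod_cast cc_nonneg t N
  have h2t : (0 : ℝ) < 2 ^ t := by positivity
  have h3k : (0 : ℝ) < 3 ^ od t N := by positivity
  have e1 : |(3 : ℝ) ^ od t N * N| = 3 ^ od t N * |(N : ℝ)| := by rw [abs_mul, abs_of_pos h3k]
  have e2 : |(2 : ℝ) ^ t * X| = 2 ^ t * |(X : ℝ)| := by rw [abs_mul, abs_of_pos h2t]
  have e3 : |(cc t N : ℝ)| = cc t N := abs_of_nonneg h3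
  have h4 : (3 : ℝ) ^ od t N * |(N : ℝ)| ≤ 2 ^ t * |(X : ℝ)| + cc t N := by
    rw [← e1, ← e2, ← e3]
    have : (3 : ℝ) ^ od t N * N = 2 ^ t * X - cc t N := by linarith
    rw [this]
    exact abs_sub _ _
  have h5 : (2 : ℝ) ^ t * |(X : ℝ)| ≤ 3 ^ od t N * |(N : ℝ)| + cc t N := by
    rw [← e1, ← e2, ← e3, h2]
    exact abs_add_le _ _
  have hw : |(N : ℝ)| * wt t N = 3 ^ od t N * |(N : ℝ)| / 2 ^ t := by
    unfold wt; ring
  have h6 : V * 2 ^ t ≤ |(X : ℝ)| / 2 * 2 ^ t := by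
    apply mul_le_mul_of_nonneg_right _ h2t.le
    linarith
  have h7 : 0 ≤ |(X : ℝ)| * 2 ^ t := by positivity
  rw [hw]
  constructor
  · rw [div_le_iff₀ h2t]
    nlinarith
  · rw [← mul_div_assoc, le_div_iff₀ h2t]
    nlinarith

theorem L_bound {n : ℕ} {N L : ℤ} (h : T^[n] L = N) :
    |(L : ℝ)| ≤ 2 ^ n / 3 ^ od n L * (|(N : ℝ)| + 3 ^ od n L) := by
  have h1 := affine n L
  rw [h] at h1
  have h2 : (2 : ℝ) ^ n * N = 3 ^ od n L * L + cc n L := by exact_mod_cast h1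
  have h3 : (0 : ℝ) ≤ cc n L := by exact_mod_cast cc_nonneg n L
  have h4 : (cc n L : ℝ) ≤ 3 ^ od n L * 2 ^ n := by exact_mod_cast cc_le n L
  have h2t : (0 : ℝ) < 2 ^ n := by positivity
  have h3k : (0 : ℝ) < 3 ^ od n L := by positivity
  have e1 : |(3 : ℝ) ^ od n L * L| = 3 ^ od n L * |(L : ℝ)| := by rw [abs_mul, abs_of_pos h3k]
  have e2 : |(2 : ℝ) ^ n * N| = 2 ^ n * |(N : ℝ)| := by rw [abs_mul, abs_of_pos h2t]
  have e3 : |(cc n L : ℝ)| = cc n L := abs_of_nonneg h3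
  have h5 : (3 : ℝ) ^ od n L * |(L : ℝ)| ≤ 2 ^ n * |(N : ℝ)| + cc n L := by
    rw [← e1, ← e2, ← e3]
    have : (3 : ℝ) ^ od n L * L = 2 ^ n * N - cc n L := by linarith
    rw [this]
    exact abs_sub _ _
  rw [div_mul_eq_mul_div, le_div_iff₀ h3k]
  nlinarith

theorem iter_inj {X : ℤ} (hper : ∀ j, 1 ≤ j → T^[j] X ≠ X) {a b : ℕ} {L : ℤ} (ha : T^[a] L = X) (hb : T^[b] L = X) :
    a = b := by
  have key : ∀ a b : ℕ, T^[a] L = X → T^[b] L = X → ¬ a < b := by
    intro a b ha hb hab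
    apply hper (b - a) (by omega)
    have e : b = (b - a) + a := by omega
    rw [e, Function.iterate_add_apply, ha] at hb
    exact hb
  have h1 := key a b ha hb
  have h2 := key b a hb ha
  omega

theorem L_final {t n : ℕ} {X N L : ℤ} {V R : ℝ} (hV : 1 ≤ V) (hX : 2 * V ≤ |(X : ℝ)|) (hR : 16 * 2 ^ (t / 5) ≤ R)
    (hN : T^[t] N = X) (hc : (cc t N : ℝ) ≤ V * 2 ^ t) (hn : n ≤ t / 5) (hL : T^[n] L = N)
    (h1 : R * wt t N / 8 < 2 ^ n / 3 ^ od n L) (h2 : (2 : ℝ) ^ n / 3 ^ od n L ≤ 2 * (R * wt t N / 8)) :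
    |(L : ℝ)| ≤ R * |(X : ℝ)| := by
  obtain ⟨b1, b2⟩ := N_bounds hN hc hX
  have hw := wt_pos t N
  have h3k : (0 : ℝ) < 3 ^ od n L := by positivity
  have h2n : (2 : ℝ) ^ n ≤ 2 ^ (t / 5) := pow_le_pow_right₀ (by norm_num) hn
  have hR0 : 0 < R := lt_of_lt_of_le (by positivity) hR
  have h3 : (3 : ℝ) ^ od n L * wt t N ≤ 1 / 2 := by
    rw [lt_div_iff₀ h3k] at h1
    have h4 : R * (wt t N * 3 ^ od n L) < 8 * 2 ^ n := by nlinarith
    have h5 : R * (wt t N * 3 ^ od n L) < R * (1 / 2) := by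
      calc R * (wt t N * 3 ^ od n L) < 8 * 2 ^ n := h4
        _ ≤ 8 * 2 ^ (t / 5) := by linarith
        _ ≤ R * (1 / 2) := by linarith
    have := lt_of_mul_lt_mul_left h5 hR0.le
    linarith
  have h4 : (3 : ℝ) ^ od n L ≤ |(N : ℝ)| := by
    have h5 : (3 : ℝ) ^ od n L * wt t N ≤ |(N : ℝ)| * wt t N := by linarith
    exact le_of_mul_le_mul_right h5 hw
  have h5 := L_bound hL
  calc |(L : ℝ)| ≤ 2 ^ n / 3 ^ od n L * (|(N : ℝ)| + 3 ^ od n L) := h5
    _ ≤ 2 * (R * wt t N / 8) * (2 * |(N : ℝ)|) := by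
        apply mul_le_mul h2 (by linarith) (by positivity) (by positivity)
    _ = R / 2 * (|(N : ℝ)| * wt t N) := by ring
    _ ≤ R / 2 * (2 * |(X : ℝ)|) := by
        apply mul_le_mul_of_nonneg_left b1 (by positivity)
    _ = _ := by ring

open Classical in
/-- the cells -/
noncomputable def Kset (n : ℕ) (ρ : ℝ) : Finset ℕ := (KS n 0).filter (fun k => ρ < 2 ^ n / 3 ^ k ∧ (2 : ℝ) ^ n / 3 ^ k ≤ 2 * ρ)

open Classical in
/-- the preimages in a cell whose residue satisfies `P` -/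
noncomputable def cell (P : ℕ → Prop) (N : ℤ) (n : ℕ) (ρ : ℝ) : Finset ℤ :=
  (Pre n N).filter (fun L => od n L ∈ Kset n ρ ∧ P (L % 2 ^ n).toNat)

open Classical in
theorem cell_card (P : ℕ → Prop) (N : ℤ) (n : ℕ) (ρ : ℝ) : ρ * ∑ k ∈ Kset n ρ, D k n k P N ≤ ((cell P N n ρ).card : ℝ) := by
  have h1 : ∑ k ∈ Kset n ρ, D k n k P N = ∑ L ∈ cell P N n ρ, wt n L := by
    rw [D_eq_sum]
    unfold cell
    rw [Finset.sum_filter]
  rw [h1, Finset.mul_sum]
  have h2 : ((cell P N n ρ).card : ℝ) = ∑ L ∈ cell P N n ρ, (1 : ℝ) := by simp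
  rw [h2]
  apply Finset.sum_le_sum
  intro L hL
  unfold cell at hL
  rw [Finset.mem_filter] at hL
  have h3 := hL.2.1
  unfold Kset at h3
  rw [Finset.mem_filter] at h3
  have h4 := h3.2.1
  unfold wt
  have h3k : (0 : ℝ) < 3 ^ od n L := by positivity
  have h2n : (0 : ℝ) < 2 ^ n := by positivity
  rw [lt_div_iff₀ h3k] at h4
  rw [← mul_div_assoc, div_le_one h2n]
  exact h4.le

open Classical in
/-- **counting core** -/
theorem core {P : ℕ → Prop} {t : ℕ} {X : ℤ} {V R : ℝ} (hV : 1 ≤ V) (hX : 2 * V ≤ |(X : ℝ)|) (hper : ∀ j, 1 ≤ j → T^[j] X ≠ X)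
    (hR : 16 * 2 ^ (t / 5) ≤ R) (f : ℤ → ℝ)
    (hf : ∀ N ∈ Pre t X, Gn t V N → f N ≤ ∑ n ∈ Finset.Icc (t / 200) (t / 5), ∑ k ∈ Kset n (R * wt t N / 8), D k n k P N) :
    ∃ S : Finset ℤ, (∀ L ∈ S, |(L : ℝ)| ≤ R * |(X : ℝ)| ∧ (∃ j, T^[j] L = X) ∧ ∃ n, t / 200 ≤ n ∧ P (L % 2 ^ n).toNat) ∧
      R / 8 * ∑ N ∈ Pre t X, (if Gn t V N then wt t N * f N else 0) ≤ (S.card : ℝ) := by
  have hR0 : 0 < R := lt_of_lt_of_le (by positivity) hR
  obtain ⟨G, hG⟩ : ∃ G : Finset ℤ, G = (Pre t X).filter (fun N => Gn t V N) := ⟨_, rfl⟩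
  refine ⟨G.biUnion (fun N => (Finset.Icc (t / 200) (t / 5)).biUnion (fun n => cell P N n (R * wt t N / 8))), ?_, ?_⟩
  · intro L hL
    rw [Finset.mem_biUnion] at hL
    obtain ⟨N, hN, hL⟩ := hL
    rw [Finset.mem_biUnion] at hL
    obtain ⟨n, hn, hL⟩ := hL
    rw [hG, Finset.mem_filter, mem_Pre] at hN
    rw [Finset.mem_Icc] at hn
    unfold cell at hL
    rw [Finset.mem_filter, mem_Pre] at hL
    have h3 := hL.2.1
    unfold Kset at h3
    rw [Finset.mem_filter] at h3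
    refine ⟨L_final hV hX hR hN.1 hN.2.2 hn.2 hL.1 h3.2.1 h3.2.2, ⟨t + n, ?_⟩, n, hn.1, hL.2.2⟩
    rw [Function.iterate_add_apply, hL.1, hN.1]
  · have hcell : ∀ N n L, L ∈ cell P N n (R * wt t N / 8) → T^[n] L = N := by
      intro N n L hL
      unfold cell at hL
      rw [Finset.mem_filter, mem_Pre] at hL
      exact hL.1
    have hGm : ∀ N ∈ G, T^[t] N = X := by
      intro N hN
      rw [hG, Finset.mem_filter, mem_Pre] at hN
      exact hN.1
    have huniq : ∀ N ∈ G, ∀ N' ∈ G, ∀ n n' L, L ∈ cell P N n (R * wt t N / 8) → L ∈ cell P N' n' (R * wt t N' / 8) → n = n' ∧ N = N' := by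
      intro N hN N' hN' n n' L h1 h2
      have a1 := hcell _ _ _ h1
      have a2 := hcell _ _ _ h2
      have b1 : T^[t + n] L = X := by rw [Function.iterate_add_apply, a1, hGm N hN]
      have b2 : T^[t + n'] L = X := by rw [Function.iterate_add_apply, a2, hGm N' hN']
      have h3 := iter_inj hper b1 b2
      have h4 : n = n' := by omega
      refine ⟨h4, ?_⟩
      rw [h4, a2] at a1
      exact a1.symm
    rw [Finset.card_biUnion]
    · push_cast
      have hinner : ∀ N ∈ G, R / 8 * (wt t N * f N) ≤ (((Finset.Icc (t / 200) (t / 5)).biUnion (fun n => cell P N n (R * wt t N / 8))).card : ℝ) := by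
        intro N hN
        rw [Finset.card_biUnion]
        · push_cast
          have hρ : 0 < R * wt t N / 8 := by have := wt_pos t N; positivity
          have hN' := hN
          rw [hG, Finset.mem_filter] at hN'
          calc R / 8 * (wt t N * f N) = R * wt t N / 8 * f N := by ring
            _ ≤ R * wt t N / 8 * ∑ n ∈ Finset.Icc (t / 200) (t / 5), ∑ k ∈ Kset n (R * wt t N / 8), D k n k P N :=
                mul_le_mul_of_nonneg_left (hf N hN'.1 hN'.2) hρ.le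
            _ = ∑ n ∈ Finset.Icc (t / 200) (t / 5), R * wt t N / 8 * ∑ k ∈ Kset n (R * wt t N / 8), D k n k P N := by
                rw [Finset.mul_sum]
            _ ≤ _ := by
                apply Finset.sum_le_sum
                intro n _
                exact cell_card P N n _
        · intro n _ n' _ hne
          rw [Function.onFun, Finset.disjoint_left]
          intro L h1 h2
          exact hne (huniq N hN N hN n n' L h1 h2).1
      calc R / 8 * ∑ N ∈ Pre t X, (if Gn t V N then wt t N * f N else 0) = ∑ N ∈ G, R / 8 * (wt t N * f N) := by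
            rw [hG, Finset.sum_filter, Finset.mul_sum]
            apply Finset.sum_congr rfl
            intro N _
            split_ifs
            · rfl
            · rw [mul_zero]
        _ ≤ _ := Finset.sum_le_sum hinner
    · intro N hN N' hN' hne
      rw [Function.onFun, Finset.disjoint_left]
      intro L h1 h2
      rw [Finset.mem_biUnion] at h1 h2
      obtain ⟨n, _, h1⟩ := h1
      obtain ⟨n', _, h2⟩ := h2
      exact hne (huniq N hN N' hN' n n' L h1 h2).2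

end Pool.Agent.Helper13.PD
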