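import Pool.Agent.Helper13.PD.Core
import Pool.Agent.Helper1.PD.Stmts
import Pool.Agent.Helper75.PD.Loc
import Pool.Agent.Helper44.PD.Mix
import Pool.Agent.Helper3.PD.Glue

/-! Linear lower bounds for backward orbits in a residue class, from the iteration, the local lower bound and mixing. -/

namespace Pool.Agent.Helper13.PD

open Pool.Agent.Helper3.ND Pool.Agent.Helper3.TD Pool.Agent.Helper1.PD

/-- output of the local module for preimages whose residue satisfies `P` -/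
def PT_LOC (P : ℕ → Prop) (α : ℝ) (EE : ℕ → ℤ → ℝ) : Prop := (∃ T0 : ℕ, ∀ t ≥ T0, ∀ N, 0 ≤ EE t N) ∧ (∃ T0 : ℕ, ∀ t ≥ T0, Per (t / 8) (EE t)) ∧
  (∃ (C : ℝ) (T0 : ℕ), ∀ t ≥ T0, Av (t / 8) (EE t) ≤ C / (t : ℝ) ^ 2) ∧
  ∃ T0 : ℕ, ∀ t ≥ T0, ∀ ρ : ℝ, (2 : ℝ) ^ ((t : ℝ) / 150) ≤ ρ → ρ ≤ (2 : ℝ) ^ ((t : ℝ) / 30) → ∀ N : ℤ,
    α * dl (t / 2000) (3 * (t / 2000)) N - EE t N ≤
      ∑ n ∈ Finset.Icc (t / 200) (t / 5), ∑ k ∈ Kset n ρ, D k n k P N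

theorem log23_lower : 19 * Real.log 2 ≤ 12 * Real.log 3 := by
  have h : Real.log ((2 : ℝ) ^ 19) ≤ Real.log ((3 : ℝ) ^ 12) := Real.log_le_log (by positivity) (by norm_num)
  rw [Real.log_pow, Real.log_pow] at h
  exact_mod_cast h

theorem log23_upper : 41 * Real.log 3 ≤ 65 * Real.log 2 := by
  have h : Real.log ((3 : ℝ) ^ 41) ≤ Real.log ((2 : ℝ) ^ 65) := Real.log_le_log (by positivity) (by norm_num)
  rw [Real.log_pow, Real.log_pow] at h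
  exact_mod_cast h

theorem rho_range {t : ℕ} (ht : 2880 ≤ t) {R : ℝ} (hR0 : 0 < R) (hR1 : 22 / 100 * (t : ℝ) * Real.log 2 ≤ Real.log R)
    (hR2 : Real.log R ≤ 231 / 1000 * (t : ℝ) * Real.log 2) {N : ℤ} (hN : Jt t (od t N)) :
    (2 : ℝ) ^ ((t : ℝ) / 150) ≤ R * wt t N / 8 ∧ R * wt t N / 8 ≤ (2 : ℝ) ^ ((t : ℝ) / 30) := by
  have hw := wt_pos t N
  have hl2 : 0 < Real.log 2 := Real.log_pos (by norm_num)
  have hl3 : 0 < Real.log 3 := Real.log_pos (by norm_num)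
  have h8 : Real.log (R * wt t N / 8) = Real.log R + (od t N : ℝ) * Real.log 3 - t * Real.log 2 - 3 * Real.log 2 := by
    rw [Real.log_div (by positivity) (by norm_num), Real.log_mul (by positivity) hw.ne']
    unfold wt
    rw [Real.log_div (by positivity) (by positivity), Real.log_pow, Real.log_pow]
    have : Real.log 8 = 3 * Real.log 2 := by
      have e : (8 : ℝ) = 2 ^ 3 := by norm_num
      rw [e, Real.log_pow]; norm_num
    rw [this]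
    ring
  have hρ : 0 < R * wt t N / 8 := by positivity
  have e1 : (2 : ℝ) ^ ((t : ℝ) / 150) = Real.exp ((t : ℝ) / 150 * Real.log 2) := by
    rw [Real.rpow_def_of_pos (by norm_num)]; ring_nf
  have e2 : (2 : ℝ) ^ ((t : ℝ) / 30) = Real.exp ((t : ℝ) / 30 * Real.log 2) := by
    rw [Real.rpow_def_of_pos (by norm_num)]; ring_nf
  have e3 : R * wt t N / 8 = Real.exp (Real.log (R * wt t N / 8)) := (Real.exp_log hρ).symm
  have k1 : (199 : ℝ) * t ≤ 400 * od t N := by exact_mod_cast hN.1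
  have k2 : (400 : ℝ) * od t N ≤ 201 * t := by exact_mod_cast hN.2
  have ht' : (2880 : ℝ) ≤ t := by exact_mod_cast ht
  have l1 := log23_lower
  have l2 := log23_upper
  constructor
  · rw [e1, e3, Real.exp_le_exp, h8]
    have h1 : (od t N : ℝ) * (19 * Real.log 2) ≤ od t N * (12 * Real.log 3) := mul_le_mul_of_nonneg_left l1 (by positivity)
    have h2 : (199 : ℝ) * t * Real.log 2 ≤ 400 * od t N * Real.log 2 := mul_le_mul_of_nonneg_right k1 hl2.le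
    have h3 : (2880 : ℝ) * Real.log 2 ≤ t * Real.log 2 := mul_le_mul_of_nonneg_right ht' hl2.le
    nlinarith
  · rw [e2, e3, Real.exp_le_exp, h8]
    have h1 : (od t N : ℝ) * (41 * Real.log 3) ≤ od t N * (65 * Real.log 2) := mul_le_mul_of_nonneg_left l2 (by positivity)
    have h2 : (400 : ℝ) * od t N * Real.log 2 ≤ 201 * t * Real.log 2 := mul_le_mul_of_nonneg_right k2 hl2.le
    have h3 : (0 : ℝ) ≤ t * Real.log 2 := by positivity
    nlinarith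

theorem pick {t : ℕ → ℕ} {T1 Ts : ℕ} (h0 : t 0 ≤ T1) (h1 : ∀ i, t i < t (i + 1)) (h2 : ∀ i, t (i + 1) ≤ t i + t i / 20)
    {y : ℝ} (hy : (T1 : ℝ) + Ts ≤ y) : ∃ i, 22 / 100 * (t i : ℝ) ≤ y ∧ y ≤ 231 / 1000 * (t i : ℝ) ∧ Ts ≤ t i := by
  classical
  have hmono : ∀ i, i ≤ t i := by
    intro i
    induction i with
    | zero => omega
    | succ i ih => have := h1 i; omega
  have hex : ∃ i, y < 22 / 100 * (t i : ℝ) := by
    obtain ⟨n, hn⟩ := exists_nat_gt (y * 100)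
    refine ⟨n, ?_⟩
    have h3 : (n : ℝ) ≤ t n := by exact_mod_cast hmono n
    have h4 : 0 ≤ y := le_trans (by positivity) hy
    nlinarith
  obtain ⟨j, hj⟩ : ∃ j, j = Nat.find hex := ⟨_, rfl⟩
  have hj1 : y < 22 / 100 * (t j : ℝ) := by rw [hj]; exact Nat.find_spec hex
  have hj0 : j ≠ 0 := by
    intro h
    rw [h] at hj1
    have h3 : (t 0 : ℝ) ≤ T1 := by exact_mod_cast h0
    have h4 : (0 : ℝ) ≤ t 0 := by positivity
    have h5 : (0 : ℝ) ≤ Ts := by positivity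
    nlinarith
  obtain ⟨i, rfl⟩ := Nat.exists_eq_succ_of_ne_zero hj0
  have hi : ¬ y < 22 / 100 * (t i : ℝ) := Nat.find_min hex (by omega)
  push Not at hi
  have h3 : (t (i + 1) : ℝ) ≤ 105 / 100 * t i := by
    have h4 : 20 * t (i + 1) ≤ 21 * t i := by have := h2 i; omega
    have h5 : (20 : ℝ) * t (i + 1) ≤ 21 * t i := by exact_mod_cast h4
    linarith
  have h6 : y ≤ 231 / 1000 * (t i : ℝ) := by
    have : y < 22 / 100 * (t (i + 1) : ℝ) := hj1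
    linarith
  refine ⟨i, hi, h6, ?_⟩
  have h7 : (Ts : ℝ) ≤ t i := by
    have h8 : (0 : ℝ) ≤ T1 := by positivity
    have h9 : (0 : ℝ) ≤ t i := by positivity
    linarith
  exact_mod_cast h7

theorem small {C W : ℝ} (hC : 0 ≤ C) (hW : 0 ≤ W) : ∃ T0 : ℕ, ∀ t ≥ T0, ((t : ℝ) + 1) * (W * (C / (t : ℝ) ^ 2)) ≤ 1 / 100 := by
  obtain ⟨n, hn⟩ := exists_nat_gt (200 * (W * C))
  refine ⟨n + 1, fun t ht => ?_⟩
  have h1 : (n : ℝ) + 1 ≤ t := by exact_mod_cast ht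
  have h0 : (0 : ℝ) ≤ n := by positivity
  have ht0 : (0 : ℝ) < t := by linarith
  have h2 : ((t : ℝ) + 1) * (W * (C / (t : ℝ) ^ 2)) = (t + 1) * (W * C) / t ^ 2 := by ring
  rw [h2, div_le_iff₀ (by positivity)]
  have h3 : 0 ≤ W * C := by positivity
  nlinarith

theorem small_m {C W : ℝ} (hC : 0 ≤ C) (hW : 0 ≤ W) :
    ∃ T0 : ℕ, ∀ t ≥ T0, ((t : ℝ) + 1) * (W * (C / (((t / 2000 : ℕ) : ℝ)) ^ 2)) ≤ 1 / 100 := by
  obtain ⟨T0, h0⟩ := small (C := 16000000 * C) (W := W) (by positivity) hW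
  refine ⟨T0 + 4000, fun t ht => ?_⟩
  refine le_trans ?_ (h0 t (by omega))
  have h1 : (t : ℝ) ≤ 4000 * ((t / 2000 : ℕ) : ℝ) := by
    have : t ≤ 4000 * (t / 2000) := by omega
    exact_mod_cast this
  have h2 : (4000 : ℝ) ≤ t := by
    have : 4000 ≤ t := by omega
    exact_mod_cast this
  have hm : (0 : ℝ) < ((t / 2000 : ℕ) : ℝ) := by linarith
  have h3 : C / (((t / 2000 : ℕ) : ℝ)) ^ 2 ≤ 16000000 * C / (t : ℝ) ^ 2 := by
    rw [div_le_div_iff₀ (by positivity) (by positivity)]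
    have h4 : (t : ℝ) ^ 2 ≤ (4000 * ((t / 2000 : ℕ) : ℝ)) ^ 2 := by gcongr
    nlinarith
  gcongr

/-- linear lower bound for a nonperiodic large element of the favorable class -/
theorem fav {P : ℕ → Prop} {α : ℝ} (hα : 1 / 4 ≤ α) {EE : ℕ → ℤ → ℝ} (hI : ST_ITER) (hL : PT_LOC P α EE) (hM : ST_MIX) :
    ∃ (K0 : ℕ) (c0 : ℤ) (B R1 : ℕ), ∀ X : ℤ, (3 : ℤ) ^ K0 ∣ X - c0 → (B : ℤ) ≤ |X| → (∀ j, 1 ≤ j → T^[j] X ≠ X) → ∀ R : ℝ, (R1 : ℝ) ≤ R →
      ∃ S : Finset ℤ, (∀ L ∈ S, |(L : ℝ)| ≤ R * |(X : ℝ)| ∧ (∃ j, T^[j] L = X) ∧ ∃ n, 1 ≤ n ∧ P (L % 2 ^ n).toNat) ∧ R / 160 ≤ (S.card : ℝ) := by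
  classical
  obtain ⟨K0, c0, V1, hV, t', ht12, hI⟩ := hI
  obtain ⟨⟨TL0, hE0⟩, ⟨TL1, hEper⟩, ⟨CL, TL2, hEav⟩, TL3, hloc⟩ := hL
  obtain ⟨CM, hCM, m0, hmix⟩ := hM 2
  obtain ⟨RP, hper⟩ := Pool.Agent.Helper44.PD.fr_per
  obtain ⟨TA, hA⟩ := small (C := max CL 0) (W := V1 + 1) (le_max_right _ _) (by linarith)
  obtain ⟨TB, hB⟩ := small_m (C := CM) (W := V1 + 1) hCM.le (by linarith)
  obtain ⟨Ts, hTs⟩ : ∃ Ts : ℕ, Ts = 4000 + TL0 + TL1 + TL2 + TL3 + 2000 * (m0 + 1) + 16 * (RP + 1) + TA + TB := ⟨_, rfl⟩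
  obtain ⟨B, hBV⟩ := exists_nat_gt (2 * V1)
  refine ⟨K0, c0, B, 2 ^ (t' 0 + Ts), ?_⟩
  intro X hX hXB hXp R hR
  have hXV : 2 * V1 ≤ |(X : ℝ)| := by
    have : (B : ℝ) ≤ |(X : ℝ)| := by exact_mod_cast hXB
    linarith
  have hl2 : 0 < Real.log 2 := Real.log_pos (by norm_num)
  push_cast at hR
  have hR0 : 0 < R := lt_of_lt_of_le (by positivity) hR
  have hy : ((t' 0 : ℕ) : ℝ) + Ts ≤ Real.log R / Real.log 2 := by
    rw [le_div_iff₀ hl2]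
    have h1 : Real.log ((2 : ℝ) ^ (t' 0 + Ts)) ≤ Real.log R := Real.log_le_log (by positivity) hR
    rw [Real.log_pow] at h1
    push_cast at h1
    exact h1
  obtain ⟨i, hi1, hi2, hi3⟩ := pick (le_refl (t' 0)) (fun i => (ht12 i).1) (fun i => (ht12 i).2) hy
  have hu := hI X hX i
  obtain ⟨t, ht⟩ : ∃ t, t = t' i := ⟨_, rfl⟩
  rw [← ht] at hi1 hi2 hi3 hu
  rw [le_div_iff₀ hl2] at hi1
  rw [div_le_iff₀ hl2] at hi2
  have ht4 : 4000 ≤ t := by omega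
  have hRt : 16 * 2 ^ (t / 5) ≤ R := by
    have h1 : (16 : ℝ) * 2 ^ (t / 5) = 2 ^ (t / 5 + 4) := by rw [pow_add]; ring
    rw [h1]
    have h2 : Real.log ((2 : ℝ) ^ (t / 5 + 4)) ≤ Real.log R := by
      rw [Real.log_pow]
      refine le_trans ?_ hi1
      apply mul_le_mul_of_nonneg_right _ hl2.le
      have h3 : 100 * (t / 5 + 4) ≤ 22 * t := by omega
      have h4 : (100 : ℝ) * ((t / 5 + 4 : ℕ) : ℝ) ≤ 22 * t := by exact_mod_cast h3
      linarith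
    exact (Real.log_le_log_iff (by positivity) hR0).mp h2
  obtain ⟨m, hm⟩ : ∃ m, m = t / 2000 := ⟨_, rfl⟩
  obtain ⟨S, hS1, hS2⟩ := core (P := P) (t := t) (X := X) (V := V1) (R := R) hV hXV hXp hRt
    (fun N => α * dl m (3 * m) N - EE t N) (by
      intro N _ hG
      obtain ⟨r1, r2⟩ := rho_range (by omega) hR0 hi1 hi2 hG.1
      rw [hm]
      exact hloc t (by omega) _ r1 r2 N)
  refine ⟨S, ?_, le_trans ?_ hS2⟩
  · intro L hL
    obtain ⟨h1, h2, n, h3, h4⟩ := hS1 L hL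
    exact ⟨h1, h2, n, by omega, h4⟩
  -- lower bound for the weighted sum
  obtain ⟨K, hK⟩ : ∃ K, K = t / 8 := ⟨_, rfl⟩
  obtain ⟨r, hr⟩ : ∃ r, r = t / 16 := ⟨_, rfl⟩
  have hK8 : 8 * K ≤ t := by omega
  have hr1 : 10 * m ≤ r := by omega
  have hr2 : r ≤ 1000 * m := by omega
  have hr3 : 201 * r ≤ 400 * K := by omega
  have hpr : Per K (fr r) := hper r (by omega) K hr3
  have hpd : Per K (dl m (3 * m)) := (dl_per m (3 * m)).le (by omega)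
  have hpg : Per K (fun x => |fr r x - dl m (3 * m) x|) := by
    intro x
    show |fr r (x + 3 ^ K) - dl m (3 * m) (x + 3 ^ K)| = _
    rw [hpr x, hpd x]
  have w1 := window_J hK8 X (V := V1) (by linarith) (g := fun x => |fr r x - dl m (3 * m) x|) (fun _ => abs_nonneg _) hpg
  have w2 := window_J hK8 X (V := V1) (by linarith) (g := EE t) (hE0 t (by omega)) (by rw [hK]; exact hEper t (by omega))
  have a1 : ((t : ℝ) + 1) * ((V1 + 1) * Av K (fun x => |fr r x - dl m (3 * m) x|)) ≤ 1 / 100 := by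
    have h1 := hmix m r K (by omega) hr1 hr2 hr3
    have h2 := hB t (by omega)
    rw [← hm] at h2
    refine le_trans ?_ h2
    gcongr
  have a2 : ((t : ℝ) + 1) * ((V1 + 1) * Av K (EE t)) ≤ 1 / 100 := by
    have h1 := hEav t (by omega)
    rw [← hK] at h1
    have h2 := hA t (by omega)
    refine le_trans ?_ h2
    have h3 : Av K (EE t) ≤ max CL 0 / (t : ℝ) ^ 2 := by
      refine le_trans h1 ?_
      gcongr
      exact le_max_left _ _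
    gcongr
  have key : α * u t r V1 X - α * ∑ N ∈ Pre t X, (if Gn t V1 N then wt t N * |fr r N - dl m (3 * m) N| else 0) -
      ∑ N ∈ Pre t X, (if Gn t V1 N then wt t N * EE t N else 0) ≤
      ∑ N ∈ Pre t X, (if Gn t V1 N then wt t N * (α * dl m (3 * m) N - EE t N) else 0) := by
    unfold u
    rw [Finset.mul_sum, Finset.mul_sum, ← Finset.sum_sub_distrib, ← Finset.sum_sub_distrib]
    apply Finset.sum_le_sum
    intro N _
    by_cases hG : Gn t V1 N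
    · rw [if_pos hG, if_pos hG, if_pos hG, if_pos hG]
      have h1 := wt_pos t N
      have h2 := le_abs_self (fr r N - dl m (3 * m) N)
      have h3 : α * wt t N * (fr r N - dl m (3 * m) N) ≤ α * wt t N * |fr r N - dl m (3 * m) N| :=
        mul_le_mul_of_nonneg_left h2 (by positivity)
      nlinarith
    · rw [if_neg hG, if_neg hG, if_neg hG, if_neg hG]
      norm_num
  have hfin : (1 : ℝ) / 20 ≤ ∑ N ∈ Pre t X, (if Gn t V1 N then wt t N * (α * dl m (3 * m) N - EE t N) else 0) := by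
    refine le_trans ?_ key
    rw [← hr] at hu
    have h1 : α * (1 / 4 - 1 / 100) ≤ α * (u t r V1 X - ∑ N ∈ Pre t X, (if Gn t V1 N then wt t N * |fr r N - dl m (3 * m) N| else 0)) := by
      apply mul_le_mul_of_nonneg_left _ (by linarith)
      linarith
    have h2 : (1 / 4) * (1 / 4 - 1 / 100) ≤ α * (1 / 4 - 1 / 100) := by nlinarith
    linarith
  calc R / 160 = R / 8 * (1 / 20) := by ring
    _ ≤ _ := mul_le_mul_of_nonneg_left hfin (by positivity)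

theorem st_mix : ST_MIX := Pool.Agent.Helper44.PD.fr_dl

theorem pt_loc : PT_LOC (fun _ => True) (1 / 2) Pool.Agent.Helper75.PD.EE := by
  refine ⟨⟨0, fun t _ N => Pool.Agent.Helper75.PD.EE_nonneg t N⟩, ⟨200000, fun t ht => Pool.Agent.Helper75.PD.EE_per t ht⟩, ?_,
    200000, ?_⟩
  · obtain ⟨C, _, T0, h⟩ := Pool.Agent.Helper75.PD.EE_av 2
    exact ⟨C, T0, fun t ht => h t ht⟩
  · intro t ht ρ h1 h2 N
    exact Pool.Agent.Helper75.PD.loc_lower t ht ρ h1 h2 N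

theorem fin_abs' (P : ℤ → Prop) (x : ℝ) : {N : ℤ | |(N : ℝ)| ≤ x ∧ P N}.Finite := Pool.Agent.Helper3.PD.fin_abs P x

/-- **FIN** -/
theorem st_fin (hI : ST_ITER) : ST_FIN := by
  obtain ⟨K0, c0, B, R1, h⟩ := fav (by norm_num) hI pt_loc st_mix
  refine ⟨K0, c0, B, R1, 1 / 160, by norm_num, ?_⟩
  intro X h1 h2 h3 R hR
  obtain ⟨S, a1, a2⟩ := h X h1 h2 h3 R hR
  have a3 : (Nat.card {N : ℤ // |(N : ℝ)| ≤ R * |(X : ℝ)| ∧ ∃ j : ℕ, T^[j] N = X} : ℝ) =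
    ({N : ℤ | |(N : ℝ)| ≤ R * |(X : ℝ)| ∧ ∃ j : ℕ, T^[j] N = X}.ncard : ℝ) := rfl
  rw [a3]
  have a4 := Set.ncard_le_ncard (s := (S : Set ℤ)) (t := {N : ℤ | |(N : ℝ)| ≤ R * |(X : ℝ)| ∧ ∃ j : ℕ, T^[j] N = X})
    (fun L hL => ⟨(a1 L hL).1, (a1 L hL).2.1⟩) (fin_abs' _ _)
  rw [Set.ncard_coe_finset] at a4
  have a5 : (S.card : ℝ) ≤ ({N : ℤ | |(N : ℝ)| ≤ R * |(X : ℝ)| ∧ ∃ j : ℕ, T^[j] N = X}.ncard : ℝ) := by exact_mod_cast a4
  linarith

theorem odd_of_mod {L : ℤ} {n : ℕ} (hn : 1 ≤ n) (h : (L % 2 ^ n).toNat % 2 = 1) : L % 2 = 1 := by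
  have hp : (0 : ℤ) < 2 ^ n := by positivity
  have h3 : (((L % 2 ^ n).toNat : ℕ) : ℤ) = L % 2 ^ n := Int.toNat_of_nonneg (Int.emod_nonneg _ hp.ne')
  have h4 : (L % 2 ^ n) % 2 = 1 := by
    rw [← h3]
    exact_mod_cast h
  rw [Int.emod_emod_of_dvd L (dvd_pow_self 2 (by omega))] at h4
  exact h4

/-- **FIN for odd predecessors** -/
theorem st_fino (hI : ST_ITER) {α : ℝ} (hα : 1 / 4 ≤ α) {EE : ℕ → ℤ → ℝ} (hL : PT_LOC (fun r => r % 2 = 1) α EE) : Pool.Agent.Helper3.PD.ST_FINo := by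
  obtain ⟨K0, c0, B, R1, h⟩ := fav hα hI hL st_mix
  refine ⟨K0, c0, B, R1, 1 / 160, by norm_num, ?_⟩
  intro X h1 h2 h3 R hR
  obtain ⟨S, a1, a2⟩ := h X h1 h2 h3 R hR
  have a3 : (Nat.card {N : ℤ // |(N : ℝ)| ≤ R * |(X : ℝ)| ∧ N % 2 = 1 ∧ ∃ j : ℕ, T^[j] N = X} : ℝ) =
    ({N : ℤ | |(N : ℝ)| ≤ R * |(X : ℝ)| ∧ N % 2 = 1 ∧ ∃ j : ℕ, T^[j] N = X}.ncard : ℝ) := rfl
  rw [a3]
  have a4 := Set.ncard_le_ncard (s := (S : Set ℤ)) (t := {N : ℤ | |(N : ℝ)| ≤ R * |(X : ℝ)| ∧ N % 2 = 1 ∧ ∃ j : ℕ, T^[j] N = X})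
    (fun L hL => by
      obtain ⟨b1, b2, n, b3, b4⟩ := a1 L hL
      exact ⟨b1, odd_of_mod b3 b4, b2⟩) (fin_abs' _ _)
  rw [Set.ncard_coe_finset] at a4
  have a5 : (S.card : ℝ) ≤ ({N : ℤ | |(N : ℝ)| ≤ R * |(X : ℝ)| ∧ N % 2 = 1 ∧ ∃ j : ℕ, T^[j] N = X}.ncard : ℝ) := by exact_mod_cast a4
  linarith

end Pool.Agent.Helper13.PD
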