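import Pool.Agent.Helper66.PD.Stmts

/-!
PD, row SEQ: a cycle of a relation as a periodic sequence.
-/

set_option autoImplicit false

namespace Pool.Agent.Helper66.PD

theorem seq_path {T : Type} {R : T → T → Prop} {a b : T} (h : Relation.TransGen R a b) :
    ∃ (n : ℕ) (t : ℕ → T), 1 ≤ n ∧ t 0 = a ∧ t n = b ∧ ∀ k, k < n → R (t k) (t (k + 1)) := by
  induction h with
  | single h =>
    rename_i b
    refine ⟨1, fun k => if k = 0 then a else b, le_rfl, by simp, by simp, ?_⟩
    intro k hk
    have hk0 : k = 0 := by omega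
    subst hk0
    simpa using h
  | tail _ h ih =>
    rename_i b c _
    obtain ⟨n, t, hn, h0, h1, h2⟩ := ih
    refine ⟨n + 1, fun k => if k ≤ n then t k else c, by omega, by simp [h0], by simp, ?_⟩
    intro k hk
    rcases Nat.lt_or_ge k n with h3 | h3
    · have h4 : k ≤ n := h3.le
      have h5 : k + 1 ≤ n := h3
      simp only [if_pos h4, if_pos h5]
      exact h2 k h3
    · have h4 : k = n := by omega
      subst h4
      have h5 : ¬ k + 1 ≤ k := by omega
      simp only [le_refl, if_true, if_neg h5, h1]
      exact h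

theorem st_SEQ : ST_SEQ := by
  intro T R s h
  obtain ⟨n, t, hn, h0, h1, h2⟩ := seq_path h
  refine ⟨n, fun k => t (k % n), hn, ?_, ?_⟩
  · intro k
    have hlt : k % n < n := Nat.mod_lt _ hn
    rcases Nat.lt_or_ge (k % n + 1) n with h3 | h3
    · have h4 : (k + 1) % n = k % n + 1 := by
        rw [Nat.add_mod, Nat.mod_eq_of_lt (show 1 < n by omega), Nat.mod_eq_of_lt h3]
      simp only [h4]
      exact h2 _ hlt
    · have h5 : k % n + 1 = n := by omega
      have h4 : (k + 1) % n = 0 := by
        rcases Nat.eq_or_lt_of_le hn with h6 | h6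
        · rw [← h6, Nat.mod_one]
        · rw [Nat.add_mod, Nat.mod_eq_of_lt h6, h5, Nat.mod_self]
      simp only [h4]
      have h7 := h2 _ hlt
      rw [h5, h1, ← h0] at h7
      exact h7
  · intro k
    simp only [Nat.add_mod_right]

end Pool.Agent.Helper66.PD
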